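import Pool.Agent.H69.TRI.StmtsP

/-! Block A of TRI: module BARYTB (barycentric data of `Tb β`). -/

open MeasureTheory Set Filter Topology InnerProductSpace Metric
open scoped Real ComplexConjugate ContDiff Laplacian

namespace Pool.TRI.A

private theorem barytb_s3 : (√3 : ℝ) ^ 2 = 3 := Real.sq_sqrt (by norm_num)

private theorem barytb_om_re : om.re = -1 / 2 := rfl
private theorem barytb_om_im : om.im = √3 / 2 := rfl

private theorem barytb_om2 : om ^ 2 = conj om := by
  have h := barytb_s3
  apply Complex.ext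
  · simp only [pow_two, Complex.mul_re, Complex.conj_re, barytb_om_re, barytb_om_im]; linarith
  · simp only [pow_two, Complex.mul_im, Complex.conj_im, barytb_om_re, barytb_om_im]; ring

private theorem barytb_com2 : (conj om) ^ 2 = om := by
  rw [← map_pow, barytb_om2, Complex.conj_conj]

/-- the gradients -/
private noncomputable def barytb_g (β : ℂ) (k : Fin 3) : ℂ := (om ^ (k : ℕ) + β * (conj om) ^ (k : ℕ)) / 3

private theorem barytb_g0 (β : ℂ) : barytb_g β 0 = (1 + β) / 3 := by simp [barytb_g]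
private theorem barytb_g1 (β : ℂ) : barytb_g β 1 = (om + β * conj om) / 3 := by simp [barytb_g]
private theorem barytb_g2 (β : ℂ) : barytb_g β 2 = (conj om + β * om) / 3 := by
  simp only [barytb_g]
  rw [show ((2 : Fin 3) : ℕ) = 2 from rfl, barytb_om2, barytb_com2]

private theorem barytb_x (β : ℂ) (k : Fin 3) (ζ : ℂ) :
    (ζ * conj (barytb_g β k)).re + 1 / 3 = X k (aff β ζ) / 3 := by
  have h3 : (conj (3 : ℂ)) = 3 := by simpa using Complex.conj_ofReal 3
  have key : (ζ * conj (barytb_g β k)).re = ((ζ + β * conj ζ) * (conj om) ^ (k : ℕ)).re / 3 := by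
    have e1 : conj (barytb_g β k) = ((conj om) ^ (k : ℕ) + conj β * om ^ (k : ℕ)) / 3 := by
      simp only [barytb_g, map_div₀, map_add, map_mul, map_pow, Complex.conj_conj, h3]
    rw [e1]
    have e2 : ζ * (((conj om) ^ (k : ℕ) + conj β * om ^ (k : ℕ)) / 3) =
        (ζ * (conj om) ^ (k : ℕ) + ζ * (conj β * om ^ (k : ℕ))) / ((3 : ℝ) : ℂ) := by push_cast; ring
    rw [e2, Complex.div_ofReal_re, Complex.add_re, add_mul, Complex.add_re]
    have e3 : (ζ * (conj β * om ^ (k : ℕ))).re = (β * conj ζ * (conj om) ^ (k : ℕ)).re := by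
      have : ζ * (conj β * om ^ (k : ℕ)) = conj (β * conj ζ * (conj om) ^ (k : ℕ)) := by
        simp only [map_mul, map_pow, Complex.conj_conj]; ring
      rw [this, Complex.conj_re]
    rw [e3]
  rw [key]
  unfold X aff
  ring

theorem barytb (_h1 : Geo1Stmt) : BaryTbStmt := by
  intro β hβ
  have hs := barytb_s3
  have h3 : (0 : ℝ) < √3 := by positivity
  have hn : ‖β‖ ^ 2 = β.re ^ 2 + β.im ^ 2 := by
    rw [← Complex.normSq_eq_norm_sq, Complex.normSq_apply]; ring
  refine ⟨⟨barytb_g β, fun _ => 1 / 3, ?_, by norm_num, ?_, ?_⟩, ?_, ?_⟩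
  · rw [barytb_g0, barytb_g1, barytb_g2]
    apply Complex.ext
    · simp [barytb_om_re, barytb_om_im]; ring
    · simp [barytb_om_re, barytb_om_im]; ring
  · have e : (barytb_g β 0 * conj (barytb_g β 1)).im = √3 / 18 * (‖β‖ ^ 2 - 1) := by
      rw [barytb_g0, barytb_g1, hn]
      simp [barytb_om_re, barytb_om_im, Complex.div_re, Complex.div_im, Complex.normSq]
      ring
    rw [e]
    have h1 : ‖β‖ ^ 2 < 1 := by nlinarith [norm_nonneg β]
    have : √3 / 18 * (‖β‖ ^ 2 - 1) < 0 := mul_neg_of_pos_of_neg (by positivity) (by linarith)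
    exact this.ne
  · intro z
    constructor
    · intro hz k
      have := hz k
      rw [barytb_x]; linarith
    · intro hz k
      have := hz k
      rw [barytb_x] at this; linarith
  · intro k ζ
    exact barytb_x β k ζ
  · intro k
    have hs' : √3 * √3 = 3 := by rw [← pow_two]; exact hs
    fin_cases k
    · show -(barytb_g β 1 * conj (barytb_g β 2)).re = (1 + ‖β‖ ^ 2 - 4 * (om ^ 0 * β).re) / 18
      rw [barytb_g1, barytb_g2, hn]
      simp [barytb_om_re, barytb_om_im, Complex.div_re, Complex.div_im, Complex.normSq]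
      linear_combination ((β.im ^ 2 + (1 - β.re) ^ 2) / 36) * hs'
    · show -(barytb_g β 2 * conj (barytb_g β 0)).re = (1 + ‖β‖ ^ 2 - 4 * (om ^ 1 * β).re) / 18
      rw [barytb_g0, barytb_g2, hn]
      simp [barytb_om_re, barytb_om_im, Complex.div_re, Complex.div_im, Complex.normSq]
      nlinarith
    · show -(barytb_g β 0 * conj (barytb_g β 1)).re = (1 + ‖β‖ ^ 2 - 4 * (om ^ 2 * β).re) / 18
      rw [barytb_g0, barytb_g1, hn, barytb_om2]
      simp [barytb_om_re, barytb_om_im, Complex.div_re, Complex.div_im, Complex.normSq]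
      nlinarith

end Pool.TRI.A
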