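import Pool.Agent.H69.TRI.StmtsP

/-! Block A of TRI: module BSM (size of the barrier and of `f`). -/

open MeasureTheory Set Filter Topology InnerProductSpace Metric
open scoped Real ComplexConjugate ContDiff Laplacian

namespace Pool.TRI.A

/-- sum of the absolute values of the coefficients times powers of `r`, for the terms of degree at least `d`,
divided by `r ^ d` -/
private def bsm_nb (d : ℕ) (r : ℚ) (l : List (ℤ × ℕ × ℕ)) : ℚ :=
  (l.map fun t => (|t.1| : ℚ) * r ^ (t.2.1 + t.2.2 - d)).sum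

private theorem bsm_ev (d : ℕ) (r : ℚ) (w : ℂ) (hw : ‖w‖ ≤ (r : ℝ)) : ∀ l : List (ℤ × ℕ × ℕ),
    (∀ t ∈ l, d ≤ t.2.1 + t.2.2) → ‖ev l w‖ ≤ ((bsm_nb d r l : ℚ) : ℝ) * ‖w‖ ^ d := by
  intro l
  induction l with
  | nil => intro _; simp [ev, bsm_nb]
  | cons t l ih =>
    intro h
    have e1 : ev (t :: l) w = (t.1 : ℂ) * w ^ t.2.1 * (conj w) ^ t.2.2 + ev l w := by simp [ev]
    have e2 : bsm_nb d r (t :: l) = (|t.1| : ℚ) * r ^ (t.2.1 + t.2.2 - d) + bsm_nb d r l := by simp [bsm_nb]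
    have h1 := ih fun t ht => h t (List.mem_cons_of_mem _ ht)
    have h2 : d ≤ t.2.1 + t.2.2 := h t List.mem_cons_self
    rw [e1, e2]
    have h3 : ‖(t.1 : ℂ) * w ^ t.2.1 * (conj w) ^ t.2.2‖ = |(t.1 : ℝ)| * (‖w‖ ^ (t.2.1 + t.2.2 - d) * ‖w‖ ^ d) := by
      rw [norm_mul, norm_mul, norm_pow, norm_pow, Complex.norm_conj, Complex.norm_intCast, ← pow_add,
        Nat.sub_add_cancel h2, pow_add]
      ring
    have h4 : ‖w‖ ^ (t.2.1 + t.2.2 - d) ≤ (r : ℝ) ^ (t.2.1 + t.2.2 - d) := pow_le_pow_left₀ (norm_nonneg _) hw _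
    calc ‖(t.1 : ℂ) * w ^ t.2.1 * (conj w) ^ t.2.2 + ev l w‖
        ≤ ‖(t.1 : ℂ) * w ^ t.2.1 * (conj w) ^ t.2.2‖ + ‖ev l w‖ := norm_add_le _ _
      _ ≤ |(t.1 : ℝ)| * ((r : ℝ) ^ (t.2.1 + t.2.2 - d) * ‖w‖ ^ d) + ((bsm_nb d r l : ℚ) : ℝ) * ‖w‖ ^ d := by
          rw [h3]
          have h5 : 0 ≤ ‖w‖ ^ d := by positivity
          have h6 := mul_le_mul_of_nonneg_right h4 h5
          have h7 := mul_le_mul_of_nonneg_left h6 (abs_nonneg (t.1 : ℝ))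
          linarith
      _ = _ := by push_cast; ring

private theorem bsm_E {w : ℂ} (h : w ∈ Sg) (hsum : X 0 w + X 1 w + X 2 w = 3) : 0 ≤ E w ∧ E w ≤ 1 := by
  have h0 := h 0
  have h1 := h 1
  have h2 := h 2
  unfold E
  refine ⟨by positivity, ?_⟩
  have e : X 2 w = 3 - X 0 w - X 1 w := by linarith
  rw [e] at h2 ⊢
  nlinarith [sq_nonneg (X 0 w - 1), sq_nonneg (X 1 w - 1), sq_nonneg (X 0 w - X 1 w), mul_nonneg h0 h1,
    mul_nonneg h0 (sq_nonneg (X 1 w - 1)), mul_nonneg h1 (sq_nonneg (X 0 w - 1)),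
    mul_nonneg h2 (sq_nonneg (X 0 w - X 1 w)), mul_nonneg h0 h2, mul_nonneg h1 h2,
    mul_nonneg h0 (sq_nonneg (X 0 w + X 1 w - 2)), mul_nonneg h1 (sq_nonneg (X 0 w + X 1 w - 2)),
    mul_nonneg h2 (sq_nonneg (X 0 w - 1)), mul_nonneg h2 (sq_nonneg (X 1 w - 1))]

private theorem bsm_f {w : ℂ} (hE : 0 ≤ E w ∧ E w ≤ 1) : ‖f w‖ ≤ ‖ev gl w‖ / 10 ^ 8 := by
  unfold f g
  rw [norm_mul, norm_div]
  have h1 : ‖((E w : ℝ) : ℂ)‖ = E w := by rw [Complex.norm_real, Real.norm_of_nonneg hE.1]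
  have h2 : ‖((10 : ℂ) ^ 8)‖ = 10 ^ 8 := by simp
  rw [h1, h2]
  have h3 : 0 ≤ ‖ev gl w‖ / 10 ^ 8 := by positivity
  nlinarith [hE.1, hE.2]

theorem bsm (h1 : Geo1Stmt) (_h2 : Geo2Stmt) : BsmStmt := by
  obtain ⟨-, -, -, -, hsum, -, hE, -, -, hSg, -, hSg1⟩ := h1
  refine ⟨?_, ?_, ?_, ?_, ?_⟩
  · intro w hw
    have hw1 : w ∈ Sg := hSg1 w (by linarith)
    have hEw := bsm_E hw1 (hsum w)
    -- the first coefficient separately
    have e1 : ev bl w = (157168 : ℂ) + ev bl.tail w := by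
      have : bl = (157168, 0, 0) :: bl.tail := rfl
      rw [this]
      simp [ev]
    have h3 : ‖ev bl.tail w‖ ≤ ((bsm_nb 2 (5006 / 10000) bl.tail : ℚ) : ℝ) * ‖w‖ ^ 2 := by
      refine bsm_ev 2 (5006 / 10000) w (by push_cast; linarith) _ ?_
      decide
    have h4 : bsm_nb 2 (5006 / 10000) bl.tail ≤ 98000 := by decide +kernel
    have h4' : ((bsm_nb 2 (5006 / 10000) bl.tail : ℚ) : ℝ) ≤ 98000 := by exact_mod_cast h4
    have hr0 : 0 ≤ ‖w‖ := norm_nonneg w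
    have h5 : (ev bl w).re ≤ 157168 + 98000 * ‖w‖ ^ 2 := by
      rw [e1, Complex.add_re]
      have h6 : (ev bl.tail w).re ≤ ‖ev bl.tail w‖ := Complex.re_le_norm _
      have h7 : ((bsm_nb 2 (5006 / 10000) bl.tail : ℚ) : ℝ) * ‖w‖ ^ 2 ≤ 98000 * ‖w‖ ^ 2 :=
        mul_le_mul_of_nonneg_right h4' (by positivity)
      have h8 : (157168 : ℂ).re = 157168 := by simp
      rw [h8]; linarith
    have h9 : E w ≤ 1 - 62485 / 100000 * ‖w‖ ^ 2 := by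
      rw [hE]
      have h10 : (w ^ 3).re ≤ ‖w‖ ^ 3 := by
        have := Complex.re_le_norm (w ^ 3)
        rwa [norm_pow] at this
      nlinarith [mul_nonneg (sq_nonneg ‖w‖) (sub_nonneg.2 hw)]
    unfold Bm
    have h11 : 0 ≤ 157168 + 98000 * ‖w‖ ^ 2 := by positivity
    have h12 : E w * ((ev bl w).re / 10 ^ 8) ≤ E w * ((157168 + 98000 * ‖w‖ ^ 2) / 10 ^ 8) :=
      mul_le_mul_of_nonneg_left (by gcongr) hEw.1
    have h13 : E w * ((157168 + 98000 * ‖w‖ ^ 2) / 10 ^ 8) ≤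
        (1 - 62485 / 100000 * ‖w‖ ^ 2) * ((157168 + 98000 * ‖w‖ ^ 2) / 10 ^ 8) :=
      mul_le_mul_of_nonneg_right h9 (by positivity)
    nlinarith [sq_nonneg ‖w‖, sq_nonneg (‖w‖ ^ 2)]
  · intro w hw
    have hEw := bsm_E hw (hsum w)
    have hw2 := hSg w hw
    have h3 : ‖ev bl w‖ ≤ ((bsm_nb 0 2 bl : ℚ) : ℝ) * ‖w‖ ^ 0 := bsm_ev 0 2 w (by push_cast; exact hw2) _ (by simp)
    have h4 : bsm_nb 0 2 bl ≤ 10 ^ 8 := by decide +kernel
    have h4' : ((bsm_nb 0 2 bl : ℚ) : ℝ) ≤ 10 ^ 8 := by exact_mod_cast h4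
    have h5 : (ev bl w).re ≤ 10 ^ 8 := by
      have := Complex.re_le_norm (ev bl w)
      rw [pow_zero, mul_one] at h3
      linarith
    unfold Bm
    have h6 : E w * ((ev bl w).re / 10 ^ 8) ≤ E w * 1 :=
      mul_le_mul_of_nonneg_left (by rw [div_le_one (by positivity)]; exact h5) hEw.1
    linarith [hEw.2]
  · intro w hw
    have hEw := bsm_E hw (hsum w)
    have hw2 := hSg w hw
    have h3 : ‖ev gl w‖ ≤ ((bsm_nb 0 2 gl : ℚ) : ℝ) * ‖w‖ ^ 0 := bsm_ev 0 2 w (by push_cast; exact hw2) _ (by simp)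
    have h4 : bsm_nb 0 2 gl ≤ 11 * 10 ^ 8 := by decide +kernel
    have h4' : ((bsm_nb 0 2 gl : ℚ) : ℝ) ≤ 11 * 10 ^ 8 := by exact_mod_cast h4
    have h5 := bsm_f hEw
    rw [pow_zero, mul_one] at h3
    have h6 : ‖ev gl w‖ / 10 ^ 8 ≤ 11 := by
      rw [div_le_iff₀ (by positivity)]; linarith
    linarith
  · intro w hw
    have hw1 : w ∈ Sg := hSg1 w (by linarith)
    have hEw := bsm_E hw1 (hsum w)
    have h3 : ‖ev gl w‖ ≤ ((bsm_nb 1 (5 / 1000) gl : ℚ) : ℝ) * ‖w‖ ^ 1 := by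
      refine bsm_ev 1 (5 / 1000) w (by push_cast; linarith) _ ?_
      decide
    have h4 : bsm_nb 1 (5 / 1000) gl ≤ 69740000 := by decide +kernel
    have h4' : ((bsm_nb 1 (5 / 1000) gl : ℚ) : ℝ) ≤ 69740000 := by exact_mod_cast h4
    have h5 := bsm_f hEw
    rw [pow_one] at h3
    have h6 : ‖ev gl w‖ / 10 ^ 8 ≤ 6974 / 10000 * ‖w‖ := by
      rw [div_le_iff₀ (by positivity)]
      have := mul_le_mul_of_nonneg_right h4' (norm_nonneg w)
      linarith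
    linarith
  · intro w hw
    have hw1 : w ∈ Sg := hSg1 w (by linarith)
    have hEw := bsm_E hw1 (hsum w)
    have h3 : ‖ev gl w‖ ≤ ((bsm_nb 1 (4 / 10) gl : ℚ) : ℝ) * ‖w‖ ^ 1 := by
      refine bsm_ev 1 (4 / 10) w (by push_cast; linarith) _ ?_
      decide
    have h4 : bsm_nb 1 (4 / 10) gl ≤ 85000000 := by decide +kernel
    have h4' : ((bsm_nb 1 (4 / 10) gl : ℚ) : ℝ) ≤ 85000000 := by exact_mod_cast h4
    have h5 := bsm_f hEw
    rw [pow_one] at h3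
    have h6 : ‖ev gl w‖ / 10 ^ 8 ≤ 85 / 100 * ‖w‖ := by
      rw [div_le_iff₀ (by positivity)]
      have := mul_le_mul_of_nonneg_right h4' (norm_nonneg w)
      linarith
    linarith

end Pool.TRI.A
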