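import Pool.Agent.H69.TRI.StmtsP

/-! Block A of TRI: module DIR (integrals of monomials over the simplex). -/

open MeasureTheory Set Filter Topology InnerProductSpace Metric
open scoped Real ComplexConjugate ContDiff Laplacian

namespace Pool.TRI.A

private theorem dir_beta (u : ℝ) (c : ℕ) : ∀ b : ℕ,
    (∫ t in (0 : ℝ)..u, t ^ b * (u - t) ^ c) =
      u ^ (b + c + 1) * ((b.factorial * c.factorial : ℕ) : ℝ) / ((b + c + 1).factorial : ℝ) := by
  induction c with
  | zero =>
    intro b
    have h : (fun t : ℝ => t ^ b * (u - t) ^ 0) = fun t => t ^ b := by funext t; simp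
    rw [h, integral_pow]
    have hb : ((b + 0 + 1).factorial : ℝ) = ((b : ℝ) + 1) * (b.factorial : ℝ) := by
      rw [Nat.add_zero, Nat.factorial_succ]; push_cast; ring
    have h0 : (b.factorial : ℝ) ≠ 0 := by exact_mod_cast Nat.factorial_ne_zero b
    have h1 : (b : ℝ) + 1 ≠ 0 := by positivity
    rw [hb]
    simp only [Nat.factorial_zero, Nat.mul_one, Nat.add_zero]
    field_simp
    simp
  | succ c ih =>
    intro b
    have hder : ∀ t : ℝ, HasDerivAt (fun t : ℝ => t ^ (b + 1) * (u - t) ^ (c + 1))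
        (((b : ℝ) + 1) * (t ^ b * (u - t) ^ (c + 1)) - ((c : ℝ) + 1) * (t ^ (b + 1) * (u - t) ^ c)) t := by
      intro t
      have h1 : HasDerivAt (fun t : ℝ => t ^ (b + 1)) (((b + 1 : ℕ) : ℝ) * t ^ (b + 1 - 1)) t := hasDerivAt_pow _ _
      have h2 : HasDerivAt (fun t : ℝ => u - t) (-1) t := by
        simpa using (hasDerivAt_id t).const_sub u
      have h3 := h1.mul (h2.pow (c + 1))
      refine h3.congr_deriv ?_
      simp only [Nat.add_sub_cancel, Pi.pow_apply]
      push_cast
      ring
    have hint := intervalIntegral.integral_eq_sub_of_hasDerivAt (a := 0) (b := u) (fun t _ => hder t)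
      (Continuous.intervalIntegrable (by fun_prop) _ _)
    rw [intervalIntegral.integral_sub (Continuous.intervalIntegrable (by fun_prop) _ _)
      (Continuous.intervalIntegrable (by fun_prop) _ _), intervalIntegral.integral_const_mul,
      intervalIntegral.integral_const_mul, ih (b + 1)] at hint
    simp only [sub_self, ne_eq, Nat.add_eq_zero_iff, one_ne_zero, and_false, not_false_eq_true, zero_pow,
      mul_zero, zero_mul] at hint
    have hb : (b : ℝ) + 1 ≠ 0 := by positivity
    have e1 : b + 1 + c + 1 = b + (c + 1) + 1 := by ring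
    rw [e1] at hint
    have hf : ((b + (c + 1) + 1).factorial : ℝ) ≠ 0 := by exact_mod_cast Nat.factorial_ne_zero _
    have h4 : (∫ t in (0 : ℝ)..u, t ^ b * (u - t) ^ (c + 1)) = ((c : ℝ) + 1) *
        (u ^ (b + (c + 1) + 1) * (((b + 1).factorial * c.factorial : ℕ) : ℝ) / ((b + (c + 1) + 1).factorial : ℝ)) /
          ((b : ℝ) + 1) := by
      field_simp
      field_simp at hint
      linarith
    rw [h4]
    have e2 : (((b + 1).factorial * c.factorial : ℕ) : ℝ) = ((b : ℝ) + 1) * (b.factorial : ℝ) * (c.factorial : ℝ) := by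
      rw [Nat.factorial_succ]; push_cast; ring
    have e3 : ((b.factorial * (c + 1).factorial : ℕ) : ℝ) = (b.factorial : ℝ) * (((c : ℝ) + 1) * (c.factorial : ℝ)) := by
      rw [Nat.factorial_succ]; push_cast; ring
    rw [e2, e3]
    field_simp

theorem dir : DirStmt := by
  intro a b c
  unfold KI
  have h1 : ∀ s : ℝ, (∫ t in (0 : ℝ)..(1 - s), (![s, t, 1 - s - t] : Fin 3 → ℝ) 0 ^ a *
      (![s, t, 1 - s - t] : Fin 3 → ℝ) 1 ^ b * (![s, t, 1 - s - t] : Fin 3 → ℝ) 2 ^ c) =
      (s ^ a * (1 - s) ^ (b + c + 1)) * (((b.factorial * c.factorial : ℕ) : ℝ) / ((b + c + 1).factorial : ℝ)) := by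
    intro s
    have h2 : (fun t : ℝ => (![s, t, 1 - s - t] : Fin 3 → ℝ) 0 ^ a *
      (![s, t, 1 - s - t] : Fin 3 → ℝ) 1 ^ b * (![s, t, 1 - s - t] : Fin 3 → ℝ) 2 ^ c) =
      fun t => s ^ a * (t ^ b * ((1 - s) - t) ^ c) := by
      funext t
      simp only [Matrix.cons_val_zero, Matrix.cons_val_one, Matrix.cons_val]
      ring
    rw [h2, intervalIntegral.integral_const_mul, dir_beta (1 - s) c b]
    ring
  simp only [h1]
  rw [intervalIntegral.integral_mul_const, dir_beta 1 (b + c + 1) a]
  have e1 : a + (b + c + 1) + 1 = a + b + c + 2 := by ring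
  rw [e1]
  have hf : ((b + c + 1).factorial : ℝ) ≠ 0 := by exact_mod_cast Nat.factorial_ne_zero _
  have hg : ((a + b + c + 2).factorial : ℝ) ≠ 0 := by exact_mod_cast Nat.factorial_ne_zero _
  push_cast
  field_simp
  simp

end Pool.TRI.A
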