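import Pool.Agent.H89.TRI.Lib

/-! Block B of TRI: module PACK (the packed family of nets as one net over a monoid). -/

open MvPolynomial

namespace Pool.TRI.K

/-- the monoid of pairs `(o, q)` with `q k ≤ 2 K o` for `k < m` -/
private def packM (K m : ℕ) : AddSubmonoid (ℕ × (ℕ → ℕ)) where
  carrier := {p | ∀ k < m, p.2 k ≤ 2 * K * p.1}
  zero_mem' := by intro k _; simp
  add_mem' := by
    intro a b ha hb k hk
    have h1 := ha k hk
    have h2 := hb k hk
    simp only [Prod.fst_add, Prod.snd_add, Pi.add_apply, mul_add]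
    omega

/-- combination of the nets (raw entries) -/
private noncomputable def packRaw (K : ℕ) : List Net → List (List (ℕ → ℕ))
  | [] => []
  | [P] => P.map (List.map fun x _ => off K x)
  | P :: Ps => List.zipWith (List.zipWith fun x q k => Nat.casesOn (motive := fun _ => ℕ) k (off K x) q) P (packRaw K Ps)

private theorem pack_packN_cons (K W : ℕ) (P Q : Net) (Ps : List Net) :
    packN K W (P :: Q :: Ps) = zw (zw (fun x y => Nat.add (off K x) (Nat.mul W y))) P (packN K W (Q :: Ps)) := rfl

private theorem pack_packN_single (K W : ℕ) (P : Net) : packN K W [P] = mp (mp (off K)) P := rfl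

private theorem pack_raw_cons (K : ℕ) (P Q : Net) (Ps : List Net) :
    packRaw K (P :: Q :: Ps) =
      List.zipWith (List.zipWith fun x q k => Nat.casesOn (motive := fun _ => ℕ) k (off K x) q) P
        (packRaw K (Q :: Ps)) := rfl

private theorem pack_row_left {α β γ δ : Type} (g : α → β → γ) (h1 : γ → δ) (h2 : α → δ)
    (H : ∀ a b, h1 (g a b) = h2 a) (l : List α) (m : List β) (hl : l.length = m.length) :
    (List.zipWith g l m).map h1 = l.map h2 := by
  induction l generalizing m with
  | nil => simp
  | cons a l ih => cases m with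
    | nil => simp at hl
    | cons b m =>
      simp only [List.length_cons, add_left_inj] at hl
      simp [H, ih m hl]

private theorem pack_row_right {α β γ δ : Type} (g : α → β → γ) (h1 : γ → δ) (h2 : β → δ)
    (H : ∀ a b, h1 (g a b) = h2 b) (l : List α) (m : List β) (hl : l.length = m.length) :
    (List.zipWith g l m).map h1 = m.map h2 := by
  induction l generalizing m with
  | nil => cases m with
    | nil => simp
    | cons b m => simp at hl
  | cons a l ih => cases m with
    | nil => simp at hl
    | cons b m =>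
      simp only [List.length_cons, add_left_inj] at hl
      simp [H, ih m hl]

private theorem pack_row_both {α β β' γ δ : Type} (g : α → β → γ) (h1 : γ → δ) (h2 : β → β') (g' : α → β' → δ)
    (H : ∀ a b, h1 (g a b) = g' a (h2 b)) (l : List α) (m : List β) :
    (List.zipWith g l m).map h1 = List.zipWith g' l (m.map h2) := by
  induction l generalizing m with
  | nil => simp
  | cons a l ih => cases m with
    | nil => simp
    | cons b m => simp [H, ih m]

private theorem pack_net_left {α β γ δ : Type} (g : α → β → γ) (h1 : γ → δ) (h2 : α → δ)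
    (H : ∀ a b, h1 (g a b) = h2 a) (n : ℕ) (P : List (List α)) (Q : List (List β)) (hP : Sh n P) (hQ : Sh n Q) :
    (List.zipWith (List.zipWith g) P Q).map (List.map h1) = P.map (List.map h2) := by
  induction n generalizing P Q with
  | zero => rw [Sh_zero] at hP hQ; subst hP hQ; rfl
  | succ n ih =>
    obtain ⟨r, P', rfl, a1, a2⟩ := (Sh_succ n P).1 hP
    obtain ⟨s, Q', rfl, b1, b2⟩ := (Sh_succ n Q).1 hQ
    simp only [List.zipWith_cons_cons, List.map_cons]
    rw [ih P' Q' a2 b2, pack_row_left g h1 h2 H r s (by rw [a1, b1])]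

private theorem pack_net_right {α β γ δ : Type} (g : α → β → γ) (h1 : γ → δ) (h2 : β → δ)
    (H : ∀ a b, h1 (g a b) = h2 b) (n : ℕ) (P : List (List α)) (Q : List (List β)) (hP : Sh n P) (hQ : Sh n Q) :
    (List.zipWith (List.zipWith g) P Q).map (List.map h1) = Q.map (List.map h2) := by
  induction n generalizing P Q with
  | zero => rw [Sh_zero] at hP hQ; subst hP hQ; rfl
  | succ n ih =>
    obtain ⟨r, P', rfl, a1, a2⟩ := (Sh_succ n P).1 hP
    obtain ⟨s, Q', rfl, b1, b2⟩ := (Sh_succ n Q).1 hQ
    simp only [List.zipWith_cons_cons, List.map_cons]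
    rw [ih P' Q' a2 b2, pack_row_right g h1 h2 H r s (by rw [a1, b1])]

private theorem pack_net_both {α β β' γ δ : Type} (g : α → β → γ) (h1 : γ → δ) (h2 : β → β') (g' : α → β' → δ)
    (H : ∀ a b, h1 (g a b) = g' a (h2 b)) (P : List (List α)) (Q : List (List β)) :
    (List.zipWith (List.zipWith g) P Q).map (List.map h1) = List.zipWith (List.zipWith g') P (Q.map (List.map h2)) := by
  induction P generalizing Q with
  | nil => simp
  | cons r P ih => cases Q with
    | nil => simp
    | cons s Q => simp [ih Q, pack_row_both g h1 h2 g' H]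

private theorem pack_sh_zip {α β γ : Type} (g : α → β → γ) (n : ℕ) (P : List (List α)) (Q : List (List β))
    (hP : Sh n P) (hQ : Sh n Q) : Sh n (List.zipWith (List.zipWith g) P Q) := by
  induction n generalizing P Q with
  | zero => rw [Sh_zero] at hP hQ; subst hP hQ; rfl
  | succ n ih =>
    obtain ⟨r, P', rfl, a1, a2⟩ := (Sh_succ n P).1 hP
    obtain ⟨s, Q', rfl, b1, b2⟩ := (Sh_succ n Q).1 hQ
    simp only [List.zipWith_cons_cons]
    rw [Sh_cons]
    exact ⟨by simp [a1, b1], ih P' Q' a2 b2⟩

private theorem pack_raw_sh (K n : ℕ) : ∀ Ps : List Net, Ps ≠ [] → (∀ P ∈ Ps, Sh n P) → Sh n (packRaw K Ps) := by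
  intro Ps
  induction Ps with
  | nil => intro h; exact absurd rfl h
  | cons P Ps ih =>
    intro _ h
    cases Ps with
    | nil => exact (Sh_map _).2 (h P (by simp))
    | cons Q Ps =>
      rw [pack_raw_cons]
      exact pack_sh_zip _ n _ _ (h P (by simp)) (ih (by simp) fun R hR => h R (List.mem_cons_of_mem _ hR))

private theorem pack_raw_k (K n : ℕ) : ∀ Ps : List Net, (∀ P ∈ Ps, Sh n P) → ∀ (k : ℕ) (hk : k < Ps.length),
    (packRaw K Ps).map (List.map fun q => q k) = (Ps[k]).map (List.map (off K)) := by
  intro Ps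
  induction Ps with
  | nil => intro _ k hk; simp at hk
  | cons P Ps ih =>
    intro h k hk
    cases Ps with
    | nil =>
      have : k = 0 := by simp at hk; exact hk
      subst this
      show ((P.map (List.map fun x _ => off K x)).map (List.map fun q => q 0)) = P.map (List.map (off K))
      rw [List.map_map]
      congr 1
      funext r
      simp [Function.comp_def]
    | cons Q Ps =>
      rw [pack_raw_cons]
      have hs := pack_raw_sh K n (Q :: Ps) (by simp) fun R hR => h R (List.mem_cons_of_mem _ hR)
      cases k with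
      | zero =>
        exact pack_net_left _ (fun q : ℕ → ℕ => q 0) (off K) (fun a b => rfl) n _ _ (h P (by simp)) hs
      | succ k =>
        rw [pack_net_right _ (fun q : ℕ → ℕ => q (k + 1)) (fun q : ℕ → ℕ => q k) (fun a b => rfl) n _ _ (h P (by simp)) hs]
        exact ih (fun R hR => h R (List.mem_cons_of_mem _ hR)) k (by simpa using hk)

private theorem pack_raw_sum (K W : ℕ) : ∀ Ps : List Net, Ps ≠ [] →
    (packRaw K Ps).map (List.map fun q => ∑ k ∈ Finset.range Ps.length, W ^ k * q k) = packN K W Ps := by
  intro Ps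
  induction Ps with
  | nil => intro h; exact absurd rfl h
  | cons P Ps ih =>
    intro _
    cases Ps with
    | nil =>
      rw [pack_packN_single, mp_eq]
      show ((P.map (List.map fun x _ => off K x)).map (List.map _)) = _
      rw [List.map_map]
      congr 1
      funext r
      rw [mp_eq]
      simp [Function.comp_def]
    | cons Q Ps =>
      rw [pack_raw_cons, pack_packN_cons, ← ih (by simp), zw_eq]
      have hz : (fun (l : List ℤ) (m : List ℕ) => zw (fun x y => Nat.add (off K x) (Nat.mul W y)) l m) =
          List.zipWith (fun x y => Nat.add (off K x) (Nat.mul W y)) := by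
        funext l m; exact zw_eq _ _ _
      show _ = List.zipWith (fun (l : List ℤ) (m : List ℕ) => zw (fun x y => Nat.add (off K x) (Nat.mul W y)) l m) P _
      rw [hz]
      apply pack_net_both
      intro a q
      show ∑ k ∈ Finset.range (Ps.length + 1 + 1), W ^ k * _ = off K a + W * ∑ k ∈ Finset.range (Ps.length + 1), W ^ k * q k
      rw [Finset.sum_range_succ', Finset.mul_sum, add_comm]
      congr 1
      · simp
      · apply Finset.sum_congr rfl
        intro k _
        rw [pow_succ]; ring

private theorem pack_off_le (K : ℕ) (x : ℤ) (h : x.natAbs ≤ K) : off K x ≤ 2 * K ∧ ((off K x : ℕ) : ℝ) = K + x := by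
  cases x with
  | ofNat k =>
    have : off K (Int.ofNat k) = K + k := rfl
    rw [this]
    have h' : k ≤ K := h
    refine ⟨by omega, by push_cast; simp⟩
  | negSucc k =>
    have : off K (Int.negSucc k) = K - (k + 1) := rfl
    rw [this]
    have h' : k + 1 ≤ K := h
    refine ⟨by omega, ?_⟩
    rw [Nat.cast_sub h', Int.cast_negSucc]
    push_cast; ring

/-- entry of the packed net -/
private def packMk (K m : ℕ) (q : ℕ → ℕ) : packM K m :=
  ⟨(1, fun k => min (q k) (2 * K)), fun k _ => by simp⟩

private def packO (K m : ℕ) : packM K m →+ ℕ where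
  toFun a := a.1.1
  map_zero' := rfl
  map_add' _ _ := rfl

private def packZ (K m W : ℕ) : packM K m →+ ℕ where
  toFun a := ∑ k ∈ Finset.range m, W ^ k * a.1.2 k
  map_zero' := by simp
  map_add' a b := by
    rw [← Finset.sum_add_distrib]
    apply Finset.sum_congr rfl
    intro k _
    simp only [AddSubmonoid.coe_add, Prod.snd_add, Pi.add_apply]
    ring

private noncomputable def packC (K m k : ℕ) : packM K m →+ ℝ where
  toFun a := (a.1.2 k : ℝ) - K * a.1.1
  map_zero' := by simp
  map_add' a b := by
    simp only [AddSubmonoid.coe_add, Prod.snd_add, Prod.fst_add, Pi.add_apply]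
    push_cast; ring

private theorem pack_bd (K : ℕ) (P : Net) (h : bdN K P = true) : ∀ r ∈ P, ∀ x ∈ r, x.natAbs ≤ K := by
  intro r hr x hx
  have h1 := (allR_iff _ _).1 h r hr
  have h2 := (allR_iff _ _).1 h1 x hx
  exact Nat.le_of_ble_eq_true h2

private theorem pack_ter_congr {α : Type} (f g : α → ℝ) (P : List (List α)) (h : ∀ r ∈ P, ∀ a ∈ r, f a = g a)
    (x y z : ℝ) : ter (A := ℝ) f P x y z = ter (A := ℝ) g P x y z := by
  induction P with
  | nil => rfl
  | cons r P ih =>
    rw [ter_cons, ter_cons, ih fun s hs => h s (List.mem_cons_of_mem _ hs), lin_congr r fun a ha => h r (by simp) a ha]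

private theorem pack_ones (k : ℕ) {α : Type} (r : List α) (hr : r.length = k) :
    r.map (fun _ => (1 : ℕ)) = Nat.rec (motive := fun _ => List ℕ) [] (fun _ h => 1 :: h) k := by
  induction k generalizing r with
  | zero => rw [List.length_eq_zero_iff] at hr; subst hr; rfl
  | succ k ih =>
    cases r with
    | nil => simp at hr
    | cons a r =>
      simp only [List.length_cons, add_left_inj] at hr
      show 1 :: r.map (fun _ => (1 : ℕ)) = 1 :: Nat.rec (motive := fun _ => List ℕ) [] (fun _ h => 1 :: h) k
      rw [ih r hr]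

private theorem pack_oneN {α : Type} (n : ℕ) (P : List (List α)) (hP : Sh n P) :
    P.map (List.map (fun _ => (1 : ℕ))) = oneN n := by
  induction n generalizing P with
  | zero => rw [Sh_zero] at hP; subst hP; rfl
  | succ n ih =>
    obtain ⟨r, P', rfl, h1, h2⟩ := (Sh_succ n P).1 hP
    show r.map (fun _ => (1 : ℕ)) :: P'.map (List.map (fun _ => (1 : ℕ))) =
      (Nat.rec (motive := fun _ => List ℕ) [] (fun _ h => 1 :: h) (Nat.succ n)) :: oneN n
    rw [ih P' h2, pack_ones (n + 1) r h1]

private theorem pack_map_entries {α β : Type} (f g : α → β) (P : List (List α)) (h : ∀ r ∈ P, ∀ a ∈ r, f a = g a) :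
    P.map (List.map f) = P.map (List.map g) := by
  apply List.map_congr_left
  intro r hr
  apply List.map_congr_left
  intro a ha
  exact h r hr a ha

theorem pack (hL : LEAFStmt) : PACKStmt := by
  intro K w n m Ps hne hlen hbd hsh
  subst hlen
  have hs := pack_raw_sh K n Ps hne hsh
  -- bounds of the raw entries
  have hq : ∀ k (hk : k < Ps.length), ∀ r ∈ packRaw K Ps, ∀ q ∈ r, q k ≤ 2 * K := by
    intro k hk r hr q hq
    have e := pack_raw_k K n Ps hsh k hk
    have h1 : r.map (fun q => q k) ∈ (Ps[k]).map (List.map (off K)) := by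
      rw [← e]; exact List.mem_map_of_mem hr
    obtain ⟨s, hs1, hs2⟩ := List.mem_map.1 h1
    have h2 : q k ∈ s.map (off K) := by rw [hs2]; exact List.mem_map_of_mem hq
    obtain ⟨x, hx, hx2⟩ := List.mem_map.1 h2
    rw [← hx2]
    exact (pack_off_le K x (pack_bd K _ ((allR_iff _ _).1 hbd _ (List.getElem_mem hk)) s hs1 x hx)).1
  refine ⟨packM K Ps.length, inferInstance, packO K Ps.length, packZ K Ps.length (2 ^ (w + 1)),
    fun k => packC K Ps.length k, (packRaw K Ps).map (List.map (packMk K Ps.length)), (Sh_map _).2 hs, ?_, ?_, ?_, ?_⟩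
  · rw [List.map_map, ← pack_oneN n (packRaw K Ps) hs]
    congr 1
    funext r
    simp only [Function.comp_def, List.map_map]
    rfl
  · rw [List.map_map]
    have e : (List.map (packZ K Ps.length (2 ^ (w + 1))) ∘ List.map (packMk K Ps.length)) =
        List.map fun q => ∑ k ∈ Finset.range Ps.length, (2 ^ (w + 1)) ^ k * min (q k) (2 * K) := by
      funext r
      simp only [Function.comp_def, List.map_map]
      rfl
    rw [e]
    rw [pack_map_entries _ (fun q => ∑ k ∈ Finset.range Ps.length, (2 ^ (w + 1)) ^ k * q k)]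
    · exact pack_raw_sum K (2 ^ (w + 1)) Ps hne
    · intro r hr q hq'
      apply Finset.sum_congr rfl
      intro k hk
      rw [min_eq_left (hq k (Finset.mem_range.1 hk) r hr q hq')]
  · intro k hk x y t
    rw [ter_map]
    have e1 : ter (A := ℝ) (fun q => packC K Ps.length k (packMk K Ps.length q)) (packRaw K Ps) x y t =
        ter (A := ℝ) (fun q : ℕ → ℕ => (q k : ℝ) - K) (packRaw K Ps) x y t := by
      apply pack_ter_congr
      intro r hr q hq'
      show ((min (q k) (2 * K) : ℕ) : ℝ) - K * ((1 : ℕ) : ℝ) = _
      rw [min_eq_left (hq k hk r hr q hq')]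
      push_cast; ring
    rw [e1]
    have e2 : ter (A := ℝ) (fun q : ℕ → ℕ => (q k : ℝ) - K) (packRaw K Ps) x y t =
        ter (A := ℝ) (fun j : ℕ => (j : ℝ) - K) ((packRaw K Ps).map (List.map fun q => q k)) x y t := by
      rw [ter_map]
    rw [e2, pack_raw_k K n Ps hsh k hk, ter_map]
    unfold evN
    apply pack_ter_congr
    intro r hr a ha
    have := (pack_off_le K a (pack_bd K _ ((allR_iff _ _).1 hbd _ (List.getElem_mem hk)) r hr a ha)).2
    rw [this]; ring
  · intro a ha k hk
    have h1 := hL (2 * K) K w Ps.length a.1.1 (packZ K Ps.length (2 ^ (w + 1)) a) a.1.2 (fun k hk => a.2 k hk)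
      (by omega) rfl ha k hk
    show (0 : ℝ) ≤ (a.1.2 k : ℝ) - K * a.1.1
    have h2 : ((K * a.1.1 : ℕ) : ℝ) ≤ (a.1.2 k : ℝ) := by exact_mod_cast h1
    push_cast at h2
    linarith

end Pool.TRI.K
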