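import Pool.Agent.H89.TRI.Lib

/-! Block B of TRI: module POSN (soundness of `posN`). -/

open MvPolynomial

namespace Pool.TRI.K

private theorem posn_rec_true {a b : Bool} (h : Bool.rec (motive := fun _ => Bool) false a b = true) :
    b = true ∧ a = true := by
  cases b with
  | false => exact absurd h (by simp)
  | true => exact ⟨rfl, h⟩

private theorem posn_ones (k : ℕ) {α : Type} (r : List α) (hr : r.length = k) :
    r.map (fun _ => (1 : ℕ)) = Nat.rec (motive := fun _ => List ℕ) [] (fun _ h => 1 :: h) k := by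
  induction k generalizing r with
  | zero => rw [List.length_eq_zero_iff] at hr; subst hr; rfl
  | succ k ih =>
    cases r with
    | nil => simp at hr
    | cons a r =>
      simp only [List.length_cons, add_left_inj] at hr
      show 1 :: r.map (fun _ => (1 : ℕ)) = 1 :: Nat.rec (motive := fun _ => List ℕ) [] (fun _ h => 1 :: h) k
      rw [ih r hr]

private theorem posn_oneN {α : Type} (n : ℕ) (P : List (List α)) (hP : Sh n P) :
    P.map (List.map (fun _ => (1 : ℕ))) = oneN n := by
  induction n generalizing P with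
  | zero => rw [Sh_zero] at hP; subst hP; rfl
  | succ n ih =>
    obtain ⟨r, P', rfl, h1, h2⟩ := (Sh_succ n P).1 hP
    show r.map (fun _ => (1 : ℕ)) :: P'.map (List.map (fun _ => (1 : ℕ))) =
      (Nat.rec (motive := fun _ => List ℕ) [] (fun _ h => 1 :: h) (Nat.succ n)) :: oneN n
    rw [ih P' h2, posn_ones (n + 1) r h1]

theorem posn (hT : TREEStmt) (hP : PACKStmt) (hR : TRStmt) : POSNStmt := by
  intro K w fuel deg Ps h hsh P hPm x0 x1 x2 k0 k1 k2
  obtain ⟨h1, h2⟩ := posn_rec_true (show Bool.rec (motive := fun _ => Bool) false _ _ = true from h)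
  have hne : Ps ≠ [] := by rintro rfl; simp at hPm
  obtain ⟨α, inst, o, z, c, P0, s0, e1, e2, e3, e4⟩ := hP K w (deg + 1) Ps.length Ps hne rfl h1 hsh
  obtain ⟨k, hk, rfl⟩ := List.getElem_of_mem hPm
  have tn := fun g : α →+ ℕ => ((hR α P0).1 ℕ g).2
  have s1 := ((hR α P0).2 _ s0).2.1
  have ev := ((hR α P0).2 _ s0).2.2
  have o1 : (toE3 P0).map (List.map o) = oneN (deg + 1) := by
    rw [← tn o, e1, ← posn_oneN (deg + 1) P0 s0, ((hR α P0).1 ℕ (fun _ => 1)).2]
    exact (posn_oneN (deg + 1) _ s1).trans (posn_oneN (deg + 1) P0 s0).symm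
  have z1 : (toE3 P0).map (List.map z) = toE3 (packN K (Nat.pow 2 (Nat.succ w)) Ps) := by
    rw [← tn z, e2]
  have h3 := hT α o z (c k) _ (fun x hx => e4 x hx k hk) fuel 1 1 1 (deg + 1) (toE3 P0) one_pos one_pos one_pos s1
    (by rw [o1, z1]; exact h2) x2 x0 x1 k2 k0 k1
  rw [(ev ℝ ℝ (c k) x2 x0 x1).2, e3 k hk] at h3
  exact h3

end Pool.TRI.K
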