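import Pool.Agent.H89.TRI.Lib

/-! Block B of TRI: module POSQ (soundness of `posQ`). -/

open MvPolynomial

namespace Pool.TRI.K

theorem posq (hT : TREEQStmt) (hP : PACK2Stmt) : POSQStmt := by
  intro Q deg As Bs h hlen hA hB p1 p2 p3 pb x0 x1 x2 k0 k1 k2
  unfold posQ at h
  rw [and2_iff, and2_iff] at h
  obtain ⟨h1, h2, h3⟩ := h
  by_cases hne : As = []
  · subst hne
    left; intro P hP; simp at hP
  obtain ⟨α, inst, o, zA, zB, cA, cB, P0, s0, e1, eA, eB, evA, evB, lA, lB⟩ :=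
    hP Q.Kq Q.wq (deg + 1) As.length As Bs hne rfl hlen.symm h1 h2 hA hB
  have key := hT α o zA zB (Fin As.length) (fun i => cA i) (fun i => cB i) _
    (fun x hx i => lA x hx i i.2) (fun x hx i => lB x hx i i.2) Q.n1 Q.n2 Q.n3 Q.be (deg + 1) P0 p1 p2 p3 pb s0
    (by rw [e1, eA, eB]; exact h3) x0 x1 x2 k0 k1 k2
  rcases key with key | key
  · left
    intro P hPm
    obtain ⟨k, hk, rfl⟩ := List.getElem_of_mem hPm
    have := key ⟨k, hk⟩
    rwa [evA k hk] at this
  · right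
    intro P hPm
    obtain ⟨k, hk, rfl⟩ := List.getElem_of_mem hPm
    have := key ⟨k, by rw [hlen]; exact hk⟩
    rwa [evB k hk] at this

end Pool.TRI.K
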