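import Pool.Agent.H89.TRI.Lib

/-! Block B of TRI: module POSR (soundness of `posR`). -/

open MvPolynomial

namespace Pool.TRI.K

private theorem posr_rec_true {a b : Bool} (h : Bool.rec (motive := fun _ => Bool) false a b = true) :
    b = true ∧ a = true := by
  cases b with
  | false => exact absurd h (by simp)
  | true => exact ⟨rfl, h⟩

theorem posr (hT : TREEBStmt) (hP : PACKRStmt) : POSRStmt := by
  intro K w fuel deg Ps h hsh P hPm y t ky kt
  obtain ⟨h1, h2⟩ := posr_rec_true (show Bool.rec (motive := fun _ => Bool) false _ _ = true from h)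
  have hne : Ps ≠ [] := by rintro rfl; simp at hPm
  obtain ⟨α, inst, o, z, c, P0, s0, e1, e2, e3, e4⟩ := hP K w (deg + 1) Ps.length Ps hne rfl h1 hsh
  obtain ⟨k, hk, rfl⟩ := List.getElem_of_mem hPm
  have h3 := hT α o z (c k) _ (fun x hx => e4 x hx k hk) fuel P0 (by rw [e1, e2]; exact h2) y t ky kt
  rw [e3 k hk] at h3
  exact h3

end Pool.TRI.K
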