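import Pool.Agent.H69.TRI.StmtsP

/-! Block A of TRI: module PSI2 (polynomial integrals of the corrector). -/

open MeasureTheory Set Filter Topology InnerProductSpace Metric
open scoped Real ComplexConjugate ContDiff Laplacian

namespace Pool.TRI.A

/-- `20 * psi0` as a list -/
private def psi2_L : PX :=
  [(90, 5, 1, 1), (4599, 4, 2, 1), (4599, 4, 1, 2), (-837, 3, 3, 1), (-837, 3, 1, 3), (-54, 3, 2, 2),
   (-2799, 2, 4, 1), (-2799, 2, 1, 4), (27, 2, 3, 2), (27, 2, 2, 3), (-45, 1, 5, 1), (-45, 1, 1, 5),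
   (-1800, 1, 4, 2), (-1800, 1, 2, 4), (1674, 1, 3, 3)]

private theorem psi2_eq : psi0 = fun x => (1 / 20 : ℝ) * evx psi2_L x := by
  funext x
  simp only [psi0, psi2_L, evx_cons, evx_nil, mon]
  push_cast
  ring

private theorem psi2_DD (k : Fin 3) (x : Fin 3 → ℝ) : DD k psi0 x = (1 / 20 : ℝ) * evx (PX.dd k psi2_L) x := by
  rw [← DD_evx]
  unfold DD
  rw [psi2_eq]
  rw [fderiv_const_mul ((contDiff_evx (n := 1) psi2_L).differentiable (by norm_num) x)]
  rfl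

private theorem psi2_int1 : PX.int (PX.mul psi2_L psi2_L) = 400 * (15166161 / 1121120000) := by
  decide +kernel

private theorem psi2_int2 : PX.int (PX.mul (PX.dd 0 psi2_L) (PX.dd 0 psi2_L)) +
    PX.int (PX.mul (PX.dd 1 psi2_L) (PX.dd 1 psi2_L)) +
    PX.int (PX.mul (PX.dd 2 psi2_L) (PX.dd 2 psi2_L)) = 400 * (297947781 / 112112000) := by
  decide +kernel

theorem psi2 (h1 : DirStmt) : Psi2Stmt := by
  constructor
  · have e : (fun x => psi0 x ^ 2) = fun x => (1 / 400 : ℝ) * evx (PX.mul psi2_L psi2_L) x := by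
      funext x
      rw [psi2_eq, evx_mul]
      ring
    rw [e, KI_smul]
    have : KI (evx (PX.mul psi2_L psi2_L)) = ((400 * (15166161 / 1121120000) : ℚ) : ℝ) := by
      rw [KI_evx h1, psi2_int1]
    show (1 / 400 : ℝ) * KI (evx (PX.mul psi2_L psi2_L)) = _
    rw [this]
    norm_num
  · have e : (fun x => DD 0 psi0 x ^ 2 + DD 1 psi0 x ^ 2 + DD 2 psi0 x ^ 2) = fun x => (1 / 400 : ℝ) *
        (evx (PX.mul (PX.dd 0 psi2_L) (PX.dd 0 psi2_L)) x + evx (PX.mul (PX.dd 1 psi2_L) (PX.dd 1 psi2_L)) x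
          + evx (PX.mul (PX.dd 2 psi2_L) (PX.dd 2 psi2_L)) x) := by
      funext x
      rw [psi2_DD, psi2_DD, psi2_DD, evx_mul, evx_mul, evx_mul]
      ring
    have c0 := continuous_evx (PX.mul (PX.dd 0 psi2_L) (PX.dd 0 psi2_L))
    have c1 := continuous_evx (PX.mul (PX.dd 1 psi2_L) (PX.dd 1 psi2_L))
    have c2 := continuous_evx (PX.mul (PX.dd 2 psi2_L) (PX.dd 2 psi2_L))
    have c01 : Continuous fun x => evx (PX.mul (PX.dd 0 psi2_L) (PX.dd 0 psi2_L)) x +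
        evx (PX.mul (PX.dd 1 psi2_L) (PX.dd 1 psi2_L)) x := c0.add c1
    rw [e, KI_smul, KI_add c01 c2, KI_add c0 c1, KI_evx h1, KI_evx h1, KI_evx h1]
    have := psi2_int2
    have h2 : ((PX.int (PX.mul (PX.dd 0 psi2_L) (PX.dd 0 psi2_L)) : ℚ) : ℝ) +
      ((PX.int (PX.mul (PX.dd 1 psi2_L) (PX.dd 1 psi2_L)) : ℚ) : ℝ) +
      ((PX.int (PX.mul (PX.dd 2 psi2_L) (PX.dd 2 psi2_L)) : ℚ) : ℝ) = ((400 * (297947781 / 112112000) : ℚ) : ℝ) := by
      rw [← this]; push_cast; ring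
    rw [h2]
    norm_num

end Pool.TRI.A
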