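import Pool.Agent.H69.TRI.StmtsP

/-! Block A of TRI: module SMALL. -/

open MeasureTheory Set Filter Topology InnerProductSpace Metric
open scoped Real ComplexConjugate ContDiff Laplacian

namespace Pool.TRI.A

theorem small (_h1 : Geo1Stmt) : SmallStmt := by
  intro β h
  have hs : (√3 : ℝ) ^ 2 = 3 := Real.sq_sqrt (by norm_num)
  have hs' : √3 * √3 = 3 := by rw [← pow_two]; exact hs
  have h3 : (0 : ℝ) < √3 := by positivity
  have hre : om.re = -1 / 2 := rfl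
  have him : om.im = √3 / 2 := rfl
  have e1 : (om * β).re = -β.re / 2 - √3 * β.im / 2 := by
    rw [Complex.mul_re, hre, him]; ring
  have e2 : (om ^ 2 * β).re = -β.re / 2 + √3 * β.im / 2 := by
    rw [Complex.mul_re, pow_two, Complex.mul_re, Complex.mul_im, hre, him]
    linear_combination (-β.re / 4) * hs'
  have hn : ‖β‖ ^ 2 = β.re ^ 2 + β.im ^ 2 := by
    rw [← Complex.normSq_eq_norm_sq, Complex.normSq_apply]; ring
  have o1 := h.o1
  have o2 := h.o2
  have nr := h.nr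
  have lt := h.lt
  rw [e1] at o1 o2
  rw [e2] at o2 nr
  obtain ⟨t, ht⟩ : ∃ t, t = √3 * β.im := ⟨_, rfl⟩
  obtain ⟨A, hA⟩ : ∃ A, A = -β.re := ⟨_, rfl⟩
  obtain ⟨s, hsd⟩ : ∃ s, s = ‖β‖ := ⟨_, rfl⟩
  have ht2 : β.im ^ 2 = t ^ 2 / 3 := by rw [ht, mul_pow, hs]; ring
  rw [ht2] at hn
  have hb : β.re = -A := by rw [hA]; ring
  rw [hb, ← hsd] at hn
  rw [← hsd] at lt nr
  rw [hb, ← ht] at o1 o2 nr
  have hs0 : 0 ≤ s := by rw [hsd]; exact norm_nonneg β
  have t0 : 0 ≤ t := by linarith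
  have t3 : t ≤ 3 * A := by linarith
  have hsle : s ≤ A + t / 3 := by
    apply abs_le_of_sq_le_sq' _ (by linarith) |>.2
    rw [hn]; nlinarith
  have k1 : 2 * t + 5976 / 1000 * A ≤ 6 / 1000 * (1 + s ^ 2) := by linarith
  have k2 : 5976 / 1000 * s ≤ 6 / 1000 * (1 + s ^ 2) := by nlinarith
  have hss : s ^ 2 ≤ s := by nlinarith
  have k3 : s ≤ 21 / 10000 := by nlinarith
  rw [← hsd]
  unfold sA
  nlinarith

end Pool.TRI.A
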