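import Pool.Agent.H69.TRI.StmtsP

/-! Block A of TRI: module TOPTB (topology of `Tb β`). -/

open MeasureTheory Set Filter Topology InnerProductSpace Metric
open scoped Real ComplexConjugate ContDiff Laplacian

namespace Pool.TRI.A

private theorem toptb_cont (β : ℂ) (k : Fin 3) : Continuous fun ζ => X k (aff β ζ) := by
  unfold X aff
  exact continuous_const.add (Complex.continuous_re.comp
    ((continuous_id.add (continuous_const.mul Complex.continuous_conj)).mul continuous_const))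

private theorem toptb_lin (β ζ : ℂ) (k : Fin 3) (t : ℝ) :
    X k (aff β (t * ζ)) = (1 - t) + t * X k (aff β ζ) := by
  unfold X aff
  have : ((t : ℂ) * ζ + β * conj ((t : ℂ) * ζ)) * (conj om) ^ (k : ℕ) =
      (t : ℂ) * ((ζ + β * conj ζ) * (conj om) ^ (k : ℕ)) := by
    simp only [map_mul, Complex.conj_ofReal]; ring
  rw [this, Complex.re_ofReal_mul]
  ring

theorem toptb (h1 : Geo1Stmt) : TopTbStmt := by
  intro β hβ
  obtain ⟨-, -, -, -, -, -, -, -, -, hSg, -, -⟩ := h1
  have hopen : IsOpen (Tb β) := by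
    have : Tb β = ⋂ k, {ζ | 0 < X k (aff β ζ)} := by ext ζ; simp [Tb]
    rw [this]
    exact isOpen_iInter_of_finite fun k => isOpen_lt continuous_const (toptb_cont β k)
  have hclosed : IsClosed {ζ | ∀ k, 0 ≤ X k (aff β ζ)} := by
    have : {ζ | ∀ k, 0 ≤ X k (aff β ζ)} = ⋂ k, {ζ | 0 ≤ X k (aff β ζ)} := by ext ζ; simp
    rw [this]
    exact isClosed_iInter fun k => isClosed_le continuous_const (toptb_cont β k)
  have hbdd : Bornology.IsBounded (Tb β) := by
    rw [isBounded_iff_forall_norm_le]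
    refine ⟨2 / (1 - ‖β‖), fun ζ hζ => ?_⟩
    have h2 : ‖aff β ζ‖ ≤ 2 := hSg _ fun k => (hζ k).le
    have h3 : (1 - ‖β‖) * ‖ζ‖ ≤ ‖aff β ζ‖ := by
      have h4 : ‖ζ‖ ≤ ‖aff β ζ‖ + ‖β * conj ζ‖ := by
        have : ζ = aff β ζ - β * conj ζ := by unfold aff; ring
        calc ‖ζ‖ = ‖aff β ζ - β * conj ζ‖ := by rw [← this]
          _ ≤ _ := norm_sub_le _ _
      rw [norm_mul, Complex.norm_conj] at h4
      linarith
    rw [le_div_iff₀ (by linarith)]
    linarith
  have hclos : closure (Tb β) = {ζ | ∀ k, 0 ≤ X k (aff β ζ)} := by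
    apply Set.Subset.antisymm
    · exact closure_minimal (fun ζ hζ k => (hζ k).le) hclosed
    · intro ζ hζ
      rw [mem_closure_iff_seq_limit]
      refine ⟨fun n : ℕ => ((1 - 1 / ((n : ℝ) + 1) : ℝ) : ℂ) * ζ, fun n => ?_, ?_⟩
      · intro k
        rw [toptb_lin]
        have hn : (0 : ℝ) < 1 / ((n : ℝ) + 1) := by positivity
        have hn1 : 1 / ((n : ℝ) + 1) ≤ 1 := by
          rw [div_le_one (by positivity)]
          have : (0 : ℝ) ≤ n := Nat.cast_nonneg n
          linarith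
        have := hζ k
        have : 0 ≤ (1 - 1 / ((n : ℝ) + 1)) * X k (aff β ζ) := mul_nonneg (by linarith) this
        linarith
      · have h5 : Tendsto (fun n : ℕ => (1 - 1 / ((n : ℝ) + 1) : ℝ)) atTop (𝓝 (1 - 0)) :=
          tendsto_const_nhds.sub tendsto_one_div_add_atTop_nhds_zero_nat
        have h6 : Tendsto (fun n : ℕ => ((1 - 1 / ((n : ℝ) + 1) : ℝ) : ℂ) * ζ) atTop (𝓝 (((1 - 0 : ℝ) : ℂ) * ζ)) :=
          ((Complex.continuous_ofReal.tendsto _).comp h5).mul_const ζ
        simpa using h6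
  refine ⟨hopen, hbdd, hclos, fun ζ => ?_⟩
  rw [frontier, hopen.interior_eq, hclos, Set.mem_sdiff]
  constructor
  · rintro ⟨h5, h6⟩
    refine ⟨h5, ?_⟩
    by_contra h7
    push Not at h7
    exact h6 fun k => lt_of_le_of_ne (h5 k) (h7 k).symm
  · rintro ⟨h5, k, hk⟩
    refine ⟨h5, fun h6 => ?_⟩
    have := h6 k
    rw [hk] at this
    exact lt_irrefl _ this

end Pool.TRI.A
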