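import Pool.Agent.H89.TRI.Lib

/-! Block B of TRI: module TREE (soundness of the automatic bisection). -/

open MvPolynomial

namespace Pool.TRI.K

private theorem tree_okR_nil (f : ℕ → ℕ → Bool) (q : List ℕ) : okR f [] q = true := rfl
private theorem tree_okR_cons (f : ℕ → ℕ → Bool) (c d : ℕ) (r q : List ℕ) :
    okR f (c :: r) (d :: q) = Bool.rec (motive := fun _ => Bool) false (okR f r q) (f c d) := rfl
private theorem tree_okN_cons (f : ℕ → ℕ → Bool) (c d : List ℕ) (r q : List (List ℕ)) :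
    okN f (c :: r) (d :: q) = Bool.rec (motive := fun _ => Bool) false (okN f r q) (okR f c d) := rfl

private theorem tree_rec_true {a b : Bool} (h : Bool.rec (motive := fun _ => Bool) false a b = true) :
    b = true ∧ a = true := by
  cases b with
  | false => exact absurd h (by simp)
  | true => exact ⟨rfl, h⟩

private theorem tree_okR {α : Type} (f : ℕ → ℕ → Bool) (o z : α → ℕ) (l : List α)
    (h : okR f (l.map o) (l.map z) = true) : ∀ a ∈ l, f (o a) (z a) = true := by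
  induction l with
  | nil => intro a ha; simp at ha
  | cons x l ih =>
    rw [List.map_cons, List.map_cons, tree_okR_cons] at h
    obtain ⟨h1, h2⟩ := tree_rec_true h
    intro a ha
    rcases List.mem_cons.1 ha with rfl | ha
    · exact h1
    · exact ih h2 a ha

private theorem tree_okN {α : Type} (f : ℕ → ℕ → Bool) (o z : α → ℕ) (P : List (List α))
    (h : okN f (P.map (List.map o)) (P.map (List.map z)) = true) : ∀ r ∈ P, ∀ a ∈ r, f (o a) (z a) = true := by
  induction P with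
  | nil => intro r hr; simp at hr
  | cons x P ih =>
    rw [List.map_cons, List.map_cons, tree_okN_cons] at h
    obtain ⟨h1, h2⟩ := tree_rec_true h
    intro r hr
    rcases List.mem_cons.1 hr with rfl | hr
    · exact tree_okR f o z _ h1
    · exact ih h2 r hr

private theorem tree_step {α : Type} [AddCommMonoid α] (hC : CHIStmt) (c : α →+ ℝ) (a b n : ℕ) (P : List (List α))
    (ha : 0 < a) (hb : 0 < b) (hP : Sh n P)
    (h1 : ∀ y1 y2 y3 : ℝ, 0 ≤ y1 → 0 ≤ y2 → 0 ≤ y3 → 0 ≤ ter (A := ℝ) c (child1G a b P) y1 y2 y3)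
    (h2 : ∀ y1 y2 y3 : ℝ, 0 ≤ y1 → 0 ≤ y2 → 0 ≤ y3 → 0 ≤ ter (A := ℝ) c (child2G a b P) y1 y2 y3) :
    ∀ y1 y2 y3 : ℝ, 0 ≤ y1 → 0 ≤ y2 → 0 ≤ y3 → 0 ≤ ter (A := ℝ) c P y1 y2 y3 := by
  intro y1 y2 y3 k1 k2 k3
  obtain ⟨-, -, hev⟩ := (hC α a b P).2 n hP
  have ha' : (0 : ℝ) < a := by exact_mod_cast ha
  have hb' : (0 : ℝ) < b := by exact_mod_cast hb
  by_cases hc : (a : ℝ) * (y3 / b) ≤ y2
  · have e := (hev c (y3 / b) y1 (y2 - a * (y3 / b))).1
    have e1 : (y2 - (a : ℝ) * (y3 / b)) + a * (y3 / b) = y2 := by ring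
    have e2 : (b : ℝ) * (y3 / b) = y3 := by field_simp
    rw [e1, e2] at e
    rw [← e]
    exact h1 _ _ _ (by positivity) k1 (by linarith)
  · have e := (hev c (y2 / a) y1 (y3 - b * (y2 / a))).2
    have e1 : (y3 - (b : ℝ) * (y2 / a)) + b * (y2 / a) = y3 := by ring
    have e2 : (a : ℝ) * (y2 / a) = y2 := by field_simp
    rw [e1, e2] at e
    rw [← e]
    refine h2 _ _ _ (by positivity) k1 ?_
    push Not at hc
    have : (b : ℝ) * (y2 / a) ≤ b * ((a * (y3 / b)) / a) := by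
      apply mul_le_mul_of_nonneg_left _ hb'.le
      exact div_le_div_of_nonneg_right hc.le ha'.le
    have e3 : (b : ℝ) * ((a * (y3 / b)) / a) = y3 := by field_simp
    linarith

private theorem tree_auto_zero (f : ℕ → ℕ → Bool) (w1 w2 w3 : ℕ) (O Q : List (List ℕ)) :
    autoP f 0 w1 w2 w3 O Q = okN f O Q := rfl

private theorem tree_auto_succ (f : ℕ → ℕ → Bool) (fuel w1 w2 w3 : ℕ) (O Q : List (List ℕ)) :
    autoP f (fuel + 1) w1 w2 w3 O Q = Bool.rec (motive := fun _ => Bool)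
      (Bool.rec (motive := fun _ => Bool) false
        (autoP f fuel (w3 / (Nat.gcd w2 w3) * w2 + w2 / (Nat.gcd w2 w3) * w3) w1 w3
          (child2 (w3 / (Nat.gcd w2 w3)) (w2 / (Nat.gcd w2 w3)) O)
          (child2 (w3 / (Nat.gcd w2 w3)) (w2 / (Nat.gcd w2 w3)) Q))
        (autoP f fuel (w3 / (Nat.gcd w2 w3) * w2 + w2 / (Nat.gcd w2 w3) * w3) w1 w2
          (child1 (w3 / (Nat.gcd w2 w3)) (w2 / (Nat.gcd w2 w3)) O)
          (child1 (w3 / (Nat.gcd w2 w3)) (w2 / (Nat.gcd w2 w3)) Q)))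
      true (okN f O Q) := rfl

theorem tree (hC : CHIStmt) : TREEStmt := by
  intro α _ o z c f hf fuel
  induction fuel with
  | zero =>
    intro w1 w2 w3 n P _ _ _ _ h y1 y2 y3 k1 k2 k3
    rw [tree_auto_zero] at h
    exact ter_nonneg _ P (fun r hr a ha => hf a (tree_okN f o z P h r hr a ha)) y1 y2 y3 k1 k2 k3
  | succ fuel ih =>
    intro w1 w2 w3 n P p1 p2 p3 hP h
    rw [tree_auto_succ] at h
    cases hb : okN f (P.map (List.map o)) (P.map (List.map z)) with
    | true =>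
      intro y1 y2 y3 k1 k2 k3
      exact ter_nonneg _ P (fun r hr a ha => hf a (tree_okN f o z P hb r hr a ha)) y1 y2 y3 k1 k2 k3
    | false =>
      rw [hb] at h
      obtain ⟨h1, h2⟩ := tree_rec_true (show Bool.rec (motive := fun _ => Bool) false _ _ = true from h)
      have hg : 0 < Nat.gcd w2 w3 := Nat.gcd_pos_of_pos_left _ p2
      have ha : 0 < w3 / Nat.gcd w2 w3 := Nat.div_pos (Nat.gcd_le_right _ p3) hg
      have hb' : 0 < w2 / Nat.gcd w2 w3 := Nat.div_pos (Nat.gcd_le_left _ p2) hg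
      have nat := (hC α (w3 / Nat.gcd w2 w3) (w2 / Nat.gcd w2 w3) P).1
      have hsh := (hC α (w3 / Nat.gcd w2 w3) (w2 / Nat.gcd w2 w3) P).2 n hP
      rw [(nat o).1, (nat z).1] at h1
      rw [(nat o).2, (nat z).2] at h2
      have hw : 0 < w3 / (Nat.gcd w2 w3) * w2 + w2 / (Nat.gcd w2 w3) * w3 := by positivity
      exact tree_step hC c _ _ n P ha hb' hP (ih _ _ _ n _ hw p1 p2 hsh.1 h1) (ih _ _ _ n _ hw p1 p3 hsh.2.1 h2)

end Pool.TRI.K
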