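import Pool.Agent.H89.TRI.Lib

/-! Block B of TRI: module TREEQ (soundness of the near/far tree of mode Q). -/

open MvPolynomial

namespace Pool.TRI.K

private theorem treeq_okR_cons (f : ℕ → ℕ → Bool) (c d : ℕ) (r q : List ℕ) :
    okR f (c :: r) (d :: q) = Bool.rec (motive := fun _ => Bool) false (okR f r q) (f c d) := rfl
private theorem treeq_okN_cons (f : ℕ → ℕ → Bool) (c d : List ℕ) (r q : List (List ℕ)) :
    okN f (c :: r) (d :: q) = Bool.rec (motive := fun _ => Bool) false (okN f r q) (okR f c d) := rfl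

private theorem treeq_rec_true {a b : Bool} (h : Bool.rec (motive := fun _ => Bool) false a b = true) :
    b = true ∧ a = true := by
  cases b with
  | false => exact absurd h (by simp)
  | true => exact ⟨rfl, h⟩

private theorem treeq_okR {α : Type} (f : ℕ → ℕ → Bool) (o z : α → ℕ) (l : List α)
    (h : okR f (l.map o) (l.map z) = true) : ∀ a ∈ l, f (o a) (z a) = true := by
  induction l with
  | nil => intro a ha; simp at ha
  | cons x l ih =>
    rw [List.map_cons, List.map_cons, treeq_okR_cons] at h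
    obtain ⟨h1, h2⟩ := treeq_rec_true h
    intro a ha
    rcases List.mem_cons.1 ha with rfl | ha
    · exact h1
    · exact ih h2 a ha

private theorem treeq_okN {α : Type} (f : ℕ → ℕ → Bool) (o z : α → ℕ) (P : List (List α))
    (h : okN f (P.map (List.map o)) (P.map (List.map z)) = true) : ∀ r ∈ P, ∀ a ∈ r, f (o a) (z a) = true := by
  induction P with
  | nil => intro r hr; simp at hr
  | cons x P ih =>
    rw [List.map_cons, List.map_cons, treeq_okN_cons] at h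
    obtain ⟨h1, h2⟩ := treeq_rec_true h
    intro r hr
    rcases List.mem_cons.1 hr with rfl | hr
    · exact treeq_okR f o z _ h1
    · exact ih h2 r hr

/-- the conclusion for a net -/
private def TQ {α : Type} [AddCommMonoid α] {I : Type} (cA cB : I → (α →+ ℝ)) (P : List (List α)) : Prop :=
  ∀ y1 y2 y3 : ℝ, 0 ≤ y1 → 0 ≤ y2 → 0 ≤ y3 →
    (∀ i, 0 ≤ ter (A := ℝ) (cA i) P y1 y2 y3) ∨ (∀ i, 0 ≤ ter (A := ℝ) (cB i) P y1 y2 y3)

section
variable {α : Type} [AddCommMonoid α] {I : Type} {cA cB : I → (α →+ ℝ)}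

private theorem treeq_step (hC : CHIStmt) {a b n : ℕ} {P : List (List α)}
    (ha : 0 < a) (hb : 0 < b) (hP : Sh n P)
    (h1 : TQ cA cB (child1G a b P)) (h2 : TQ cA cB (child2G a b P)) : TQ cA cB P := by
  intro y1 y2 y3 k1 k2 k3
  obtain ⟨-, -, hev⟩ := (hC α a b P).2 n hP
  have ha' : (0 : ℝ) < a := by exact_mod_cast ha
  have hb' : (0 : ℝ) < b := by exact_mod_cast hb
  by_cases hc : (a : ℝ) * (y3 / b) ≤ y2
  · have e : ∀ c : α →+ ℝ, ter (A := ℝ) c (child1G a b P) (y3 / b) y1 (y2 - a * (y3 / b)) =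
        ter (A := ℝ) c P y1 y2 y3 := by
      intro c
      have e := (hev c (y3 / b) y1 (y2 - a * (y3 / b))).1
      have e1 : (y2 - (a : ℝ) * (y3 / b)) + a * (y3 / b) = y2 := by ring
      have e2 : (b : ℝ) * (y3 / b) = y3 := by field_simp
      rwa [e1, e2] at e
    rcases h1 (y3 / b) y1 (y2 - a * (y3 / b)) (by positivity) k1 (by linarith) with h | h
    · exact Or.inl fun i => (e _) ▸ h i
    · exact Or.inr fun i => (e _) ▸ h i
  · push Not at hc
    have e : ∀ c : α →+ ℝ, ter (A := ℝ) c (child2G a b P) (y2 / a) y1 (y3 - b * (y2 / a)) =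
        ter (A := ℝ) c P y1 y2 y3 := by
      intro c
      have e := (hev c (y2 / a) y1 (y3 - b * (y2 / a))).2
      have e1 : (y3 - (b : ℝ) * (y2 / a)) + b * (y2 / a) = y3 := by ring
      have e2 : (a : ℝ) * (y2 / a) = y2 := by field_simp
      rwa [e1, e2] at e
    have h3 : (0 : ℝ) ≤ y3 - b * (y2 / a) := by
      have : (b : ℝ) * (y2 / a) ≤ b * ((a * (y3 / b)) / a) := by
        apply mul_le_mul_of_nonneg_left _ hb'.le
        exact div_le_div_of_nonneg_right hc.le ha'.le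
      have e3 : (b : ℝ) * ((a * (y3 / b)) / a) = y3 := by field_simp
      linarith
    rcases h2 (y2 / a) y1 (y3 - b * (y2 / a)) (by positivity) k1 h3 with h | h
    · exact Or.inl fun i => (e _) ▸ h i
    · exact Or.inr fun i => (e _) ▸ h i

private theorem treeq_tr (hT : TRStmt) {n : ℕ} {P : List (List α)} (hP : Sh n P) (h : TQ cA cB (tr P)) :
    TQ cA cB P := by
  intro y1 y2 y3 k1 k2 k3
  obtain ⟨-, -, hev⟩ := (hT α P).2 n hP
  rcases h y2 y1 y3 k2 k1 k3 with h | h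
  · exact Or.inl fun i => by rw [← (hev ℝ ℝ (cA i) y2 y1 y3).1]; exact h i
  · exact Or.inr fun i => by rw [← (hev ℝ ℝ (cB i) y2 y1 y3).1]; exact h i

private theorem treeq_toE3 (hT : TRStmt) {n : ℕ} {P : List (List α)} (hP : Sh n P) (h : TQ cA cB (toE3 P)) :
    TQ cA cB P := by
  intro y1 y2 y3 k1 k2 k3
  obtain ⟨-, -, hev⟩ := (hT α P).2 n hP
  rcases h y3 y1 y2 k3 k1 k2 with h | h
  · exact Or.inl fun i => by rw [← (hev ℝ ℝ (cA i) y3 y1 y2).2]; exact h i
  · exact Or.inr fun i => by rw [← (hev ℝ ℝ (cB i) y3 y1 y2).2]; exact h i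

private theorem treeq_leafA (o z : α →+ ℕ) (f : ℕ → ℕ → Bool) (hf : ∀ x, f (o x) (z x) = true → ∀ i, 0 ≤ cA i x)
    {P : List (List α)} (h : okN f (P.map (List.map o)) (P.map (List.map z)) = true) : TQ cA cB P :=
  fun y1 y2 y3 k1 k2 k3 => Or.inl fun i =>
    ter_nonneg _ P (fun r hr a ha => hf a (treeq_okN f o z P h r hr a ha) i) y1 y2 y3 k1 k2 k3

private theorem treeq_leafB (o z : α →+ ℕ) (f : ℕ → ℕ → Bool) (hf : ∀ x, f (o x) (z x) = true → ∀ i, 0 ≤ cB i x)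
    {P : List (List α)} (h : okN f (P.map (List.map o)) (P.map (List.map z)) = true) : TQ cA cB P :=
  fun y1 y2 y3 k1 k2 k3 => Or.inr fun i =>
    ter_nonneg _ P (fun r hr a ha => hf a (treeq_okN f o z P h r hr a ha) i) y1 y2 y3 k1 k2 k3

private theorem treeq_near (hC : CHIStmt) (hT : TRStmt) (o zA zB : α →+ ℕ) (f : ℕ → ℕ → Bool)
    (hA : ∀ x, f (o x) (zA x) = true → ∀ i, 0 ≤ cA i x) (hB : ∀ x, f (o x) (zB x) = true → ∀ i, 0 ≤ cB i x)
    (be wv n : ℕ) (P : List (List α)) (pb : 0 < be) (pw : 0 < wv) (hP : Sh n P)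
    (h : nearFar f be wv (P.map (List.map o)) (P.map (List.map zA)) (P.map (List.map zB)) = true) : TQ cA cB P := by
  unfold nearFar at h
  rw [and2_iff, and2_iff, and2_iff] at h
  obtain ⟨h1, h2, h3, h4⟩ := h
  have trn := fun g : α →+ ℕ => ((hT α P).1 ℕ g).1
  have s1 : Sh n (tr P) := ((hT α P).2 n hP).1
  rw [trn o, trn zB] at h1 h2
  rw [trn o, trn zA] at h3 h4
  have n1 := fun g : α →+ ℕ => (hC α wv be (tr P)).1 g
  obtain ⟨s2, s3, -⟩ := (hC α wv be (tr P)).2 n s1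
  rw [(n1 o).2, (n1 zB).2] at h1
  rw [(n1 o).1, (n1 zB).1] at h2
  rw [(n1 o).1, (n1 zA).1] at h3 h4
  have n2 := fun g : α →+ ℕ => (hC α be 1 (child1G wv be (tr P))).1 g
  obtain ⟨-, s4, -⟩ := (hC α be 1 (child1G wv be (tr P))).2 n s2
  rw [(n2 o).1, (n2 zB).1] at h2
  rw [(n2 o).2, (n2 zA).2] at h3 h4
  have n3 := fun g : α →+ ℕ => ((hT α (child2G be 1 (child1G wv be (tr P)))).1 ℕ g).2
  have s5 := ((hT α (child2G be 1 (child1G wv be (tr P)))).2 n s4).2.1
  rw [n3 o, n3 zA] at h3 h4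
  have n4 := fun g : α →+ ℕ => (hC α wv 1 (toE3 (child2G be 1 (child1G wv be (tr P))))).1 g
  rw [(n4 o).1, (n4 zA).1] at h3
  rw [(n4 o).2, (n4 zA).2] at h4
  apply treeq_tr hT hP
  apply treeq_step hC pw pb s1 _ (treeq_leafB o zB f hB h1)
  apply treeq_step hC pb one_pos s2 (treeq_leafB o zB f hB h2)
  apply treeq_toE3 hT s4
  exact treeq_step hC pw one_pos s5 (treeq_leafA o zA f hA h3) (treeq_leafA o zA f hA h4)

end

theorem treeq (hC : CHIStmt) (hT : TRStmt) : TREEQStmt := by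
  intro α _ o zA zB I cA cB f hA hB n1 n2 n3 be n P p1 p2 p3 pb hP h
  show TQ cA cB P
  unfold treeQ at h
  rw [and2_iff, and2_iff, and2_iff] at h
  obtain ⟨h1, h2, h3, h4⟩ := h
  have m1 := fun g : α →+ ℕ => (hC α n2 n3 P).1 g
  obtain ⟨s1, s2, -⟩ := (hC α n2 n3 P).2 n hP
  simp only [(m1 o).1, (m1 zA).1, (m1 zB).1] at h1 h2
  simp only [(m1 o).2, (m1 zA).2, (m1 zB).2] at h3 h4
  have m2 := fun g : α →+ ℕ => ((hT α (child1G n2 n3 P)).1 ℕ g).2
  have m3 := fun g : α →+ ℕ => ((hT α (child2G n2 n3 P)).1 ℕ g).2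
  have s3 := ((hT α (child1G n2 n3 P)).2 n s1).2.1
  have s4 := ((hT α (child2G n2 n3 P)).2 n s2).2.1
  rw [m2 o, m2 zA, m2 zB] at h1 h2
  rw [m3 o, m3 zA, m3 zB] at h3 h4
  have m4 := fun g : α →+ ℕ => (hC α 1 n1 (toE3 (child1G n2 n3 P))).1 g
  have m5 := fun g : α →+ ℕ => (hC α 1 n1 (toE3 (child2G n2 n3 P))).1 g
  obtain ⟨s5, s6, -⟩ := (hC α 1 n1 (toE3 (child1G n2 n3 P))).2 n s3
  obtain ⟨s7, s8, -⟩ := (hC α 1 n1 (toE3 (child2G n2 n3 P))).2 n s4
  rw [(m4 o).1, (m4 zA).1, (m4 zB).1] at h1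
  rw [(m4 o).2, (m4 zA).2, (m4 zB).2] at h2
  rw [(m5 o).1, (m5 zA).1, (m5 zB).1] at h3
  rw [(m5 o).2, (m5 zA).2, (m5 zB).2] at h4
  have p23 : 0 < Nat.add n2 n3 := Nat.add_pos_left p2 n3
  apply treeq_step hC p2 p3 hP
  · apply treeq_toE3 hT s1
    exact treeq_step hC one_pos p1 s3 (treeq_near hC hT o zA zB f hA hB be _ n _ pb p23 s5 h1)
      (treeq_near hC hT o zA zB f hA hB be _ n _ pb one_pos s6 h2)
  · apply treeq_toE3 hT s2
    exact treeq_step hC one_pos p1 s4 (treeq_near hC hT o zA zB f hA hB be _ n _ pb p23 s7 h3)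
      (treeq_near hC hT o zA zB f hA hB be _ n _ pb one_pos s8 h4)

end Pool.TRI.K
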